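import Pool.Agent.H390R2.Core

open Finset Nat Filter Topology

namespace Pool.Agent.H357R2.Sz

open Pool.Agent.H390R2

/-- odd primes up to `m` -/
def oddP (m : ℕ) : Finset ℕ := (primesLE m).erase 2

lemma oddP_prime {m p : ℕ} (h : p ∈ oddP m) : p.Prime :=
  prime_of_mem_primesLE (Finset.mem_of_mem_erase h)

lemma oddP_le {m p : ℕ} (h : p ∈ oddP m) : p ≤ m :=
  le_of_mem_primesLE (Finset.mem_of_mem_erase h)

lemma oddP_ge {m p : ℕ} (h : p ∈ oddP m) : 3 ≤ p := by
  have h1 := (oddP_prime h).two_le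
  have h2 : p ≠ 2 := Finset.ne_of_mem_erase h
  omega

lemma oddP_odd {m p : ℕ} (h : p ∈ oddP m) : Odd p := by
  rcases (oddP_prime h).eq_two_or_odd' with h1 | h1
  · exact absurd h1 (Finset.ne_of_mem_erase h)
  · exact h1

/-- Short vectors for every congruence on the odd primes up to a suitable `m`. -/
theorem core2 {ε K : ℝ} (hε : 0 < ε) (hε1 : ε ≤ 1 / 4) (hK0 : 0 ≤ K)
    (hK : K ^ 2 * (1 + 2 * ε) * Real.exp (3 * ε) * 18 * Real.exp (-(44 / 15)) ≤
      (2 - ε) ^ 4 * Real.exp 1 * (1 - ε)) (X0 : ℝ) :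
    ∃ (m : ℕ) (lam X1 : ℝ), 45 ≤ m ∧ X0 ≤ (Nat.primeCounting m : ℝ) ∧ 1 ≤ lam ∧
      lam ≤ (m : ℝ) ^ 4 ∧ lam / 2 + 2 ≤ X1 ∧ Real.exp 2 ≤ X1 ∧
      K * (√X1 / Real.log X1) ≤ (2 - ε) * Nat.primeCounting m ∧
      ∀ N : ℕ, 0 < N → Real.log N ≤ ∑ p ∈ primesLE m, Real.log p +
          2 * Nat.primeCounting m + 20 * Real.log m →
        ∀ W : {p // p ∈ oddP m} → ℤ, ∃ e : {p // p ∈ oddP m} → ℤ, e ≠ 0 ∧
          (N : ℤ) ∣ ∑ i, W i * e i ∧
          ∑ i : {p // p ∈ oddP m}, |(e i : ℝ)| * Real.log (i : ℕ) ≤ lam := by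
  obtain ⟨n0, x0, hx0, hlat⟩ := lattice hε (by linarith)
  obtain ⟨D, hD0, hD⟩ := ev_II
  set B : ℝ := max (Real.exp 2) (max (X0 + 1) (n0 + 1)) with hB
  have hBe : Real.exp 2 ≤ B := le_max_left _ _
  have hBX : X0 + 1 ≤ B := (le_max_left _ _).trans (le_max_right _ _)
  have hBn : (n0 : ℝ) + 1 ≤ B := (le_max_right _ _).trans (le_max_right _ _)
  have hB0 : 0 < B := lt_of_lt_of_le (Real.exp_pos 2) hBe
  obtain ⟨b9, hb9⟩ := exists_nat_ge (1 / (4 * ε * Real.exp (-(44 / 15) - D)))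
  obtain ⟨b8, hb8⟩ := exists_nat_ge (Real.exp 2 / Real.exp (-(44 / 15) - D))
  obtain ⟨b7, hb7⟩ := exists_nat_ge (1 / x0)
  have hev : ∀ᶠ m : ℕ in atTop,
      45 ≤ m ∧ b9 ≤ m ∧ 1 ≤ Real.log m ∧ (44 / 15 + D) / ε ≤ Real.log m ∧
      (m : ℝ) / (2 * Real.log m) ≤ Nat.primeCounting m ∧
      II m ≤ D * Nat.primeCounting m ∧
      Real.exp D * Real.log m ^ 1 ≤ x0 * m ∧
      2 * B * Real.log m ^ 1 ≤ 1 * m ∧
      2 * Real.log m ^ 1 ≤ ε * m ∧
      60 * Real.log m ^ 2 ≤ ε * m ∧ D ≤ Real.log m ∧ b8 ≤ m ∧ b7 ≤ m := by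
    filter_upwards [eventually_ge_atTop 45, eventually_ge_atTop b9, ev_log 1,
      ev_log ((44 / 15 + D) / ε), ev_pi, hD, ev_pow 1 hx0 (Real.exp D),
      ev_pow 1 (a := 1) one_pos (2 * B), ev_pow 1 hε 2, ev_pow 2 hε 60, ev_log D,
      eventually_ge_atTop b8, eventually_ge_atTop b7]
      with m h1 h2 h3 h4 h5 h6 h7 h8 h9 h10 h11 h12 h13
    exact ⟨h1, h2, h3, h4, h5, h6, h7, h8, h9, h10, h11, h12, h13⟩
  obtain ⟨Y, hY⟩ := eventually_atTop.mp hev
  obtain ⟨m, hmY, hgood⟩ := exists_good hε Y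
  obtain ⟨h1, h2, h3, h4, h5, h6, h7, h8, h9, h10, hDL, hb8m, hb7m⟩ := hY m hmY
  clear hev hY hD hmY
  have hm45 : (45 : ℝ) ≤ m := by exact_mod_cast h1
  have hm0 : (0 : ℝ) < m := by linarith
  set L : ℝ := Real.log m with hL
  have hL0 : 0 < L := by linarith
  have hLm : L ≤ m := (Real.log_le_sub_one_of_pos hm0).trans (by linarith)
  set n : ℝ := (Nat.primeCounting m : ℝ) with hn
  have hn0 : 0 < n := lt_of_lt_of_le (by positivity) h5
  have hnm : n ≤ m := by
    rw [hn, ← Nat.primesLE_card_eq_primeCounting]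
    have : (primesLE m).card ≤ m := by
      have h := Finset.card_le_card (s := primesLE m) (t := Finset.Icc 1 m) (fun p hp => by
        rw [Finset.mem_Icc]
        exact ⟨(prime_of_mem_primesLE hp).one_le, le_of_mem_primesLE hp⟩)
      simpa using h
    exact_mod_cast this
  rw [pow_one] at h7 h8 h9
  have hnL : (m : ℝ) / 2 ≤ n * L := by
    rw [div_le_iff₀ (by positivity)] at h5
    linarith
  have hnB : B ≤ n := by
    refine le_trans ?_ h5
    rw [le_div_iff₀ (by positivity)]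
    linarith
  have hεn : 1 ≤ ε * n := by
    have : 1 ≤ ε * (m / (2 * L)) := by
      rw [mul_div_assoc', le_div_iff₀ (by positivity)]; linarith
    exact this.trans (by gcongr)
  have hεL : 30 * L ≤ ε * n := by
    have : 30 * L ≤ ε * (m / (2 * L)) := by
      rw [mul_div_assoc', le_div_iff₀ (by positivity)]
      calc 30 * L * (2 * L) = 60 * L ^ 2 := by ring
        _ ≤ ε * m := h10
    exact this.trans (by gcongr)
  set J : ℝ := II m / n with hJ
  have hnJ : n * J = II m := by rw [hJ]; field_simp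
  have hJD : J ≤ D := by
    rw [hJ, div_le_iff₀ hn0]; exact h6
  have hII0 : 0 < II m := lt_of_lt_of_le (by
    have : 0 < 1 - ε := by linarith
    positivity) hgood
  have hJ0 : 0 < J := by positivity
  set θ : ℝ := ∑ p ∈ primesLE m, Real.log p with hθ
  have hθJ : θ = n * L - n * J := by
    rw [hnJ, II_eq (by omega)]; ring
  have hθ0 : 0 ≤ θ := Finset.sum_nonneg fun p hp =>
    Real.log_natCast_nonneg p
  -- the card
  set n' : ℝ := n - 1 with hn'
  have hn4 : 4 ≤ n := by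
    have : ε * n ≤ 1 / 4 * n := by gcongr
    linarith
  have hn'0 : 0 < n' := by rw [hn']; linarith
  have h2mem : 2 ∈ primesLE m := by
    rw [mem_primesLE]
    exact ⟨by omega, Nat.prime_two⟩
  have hcardN : Fintype.card {p // p ∈ oddP m} + 1 = Nat.primeCounting m := by
    rw [Fintype.card_coe, oddP, Finset.card_erase_of_mem h2mem,
      ← Nat.primesLE_card_eq_primeCounting]
    have : 0 < (primesLE m).card := Finset.card_pos.mpr ⟨2, h2mem⟩
    omega
  have hcard : (Fintype.card {p // p ∈ oddP m} : ℝ) = n' := by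
    rw [hn', hn, ← hcardN]; push_cast; ring
  -- the double logarithms
  have hlogp1 : ∀ p : {p // p ∈ oddP m}, 1 ≤ Real.log (p : ℕ) := fun p => by
    rw [Real.le_log_iff_exp_le (by exact_mod_cast (oddP_prime p.2).pos)]
    have : (3 : ℝ) ≤ (p : ℕ) := by exact_mod_cast oddP_ge p.2
    linarith [Real.exp_one_lt_d9]
  have hlogp' : ∀ p : {p // p ∈ oddP m}, Real.log (p : ℕ) ≤ L := fun p =>
    Real.log_le_log (by exact_mod_cast (oddP_prime p.2).pos)
      (by exact_mod_cast oddP_le p.2)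
  have hlogp0 : ∀ p : {p // p ∈ oddP m}, 0 < Real.log (p : ℕ) := fun p =>
    zero_lt_one.trans_le (hlogp1 p)
  set LL : ℝ := ∑ p : {p // p ∈ oddP m}, Real.log (Real.log (p : ℕ)) with hLL
  have hLL1 : LL ≤ n' * Real.log L := by
    rw [← hcard, ← Finset.card_univ, ← nsmul_eq_mul, ← Finset.sum_const]
    exact Finset.sum_le_sum fun p _ => Real.log_le_log (hlogp0 p) (hlogp' p)
  have hLL2 : 0 ≤ LL := Finset.sum_nonneg fun p _ => Real.log_nonneg (hlogp1 p)
  -- the scale
  set T : ℝ := θ + 2 * n + 20 * L with hT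
  set s : ℝ := (T + LL) / n' + (Real.log 40 - 74 / 15) + 2 * ε with hs
  have hsn : s * n' = T + LL + n' * (Real.log 40 - 74 / 15 + 2 * ε) := by
    rw [hs]; field_simp; ring
  have hTn : T ≤ n' * (L - J + 2 + ε) := by
    rw [hT, hθJ, hn']
    have e1 : (n - 1) * (L - J + 2 + ε) = n * L - n * J + 2 * n + ε * n - (L - J + 2 + ε) := by ring
    rw [e1]
    have e2 : L - J + 2 + ε ≤ 10 * L := by linarith
    linarith
  have hs1 : s ≤ L - J + 2 + Real.log L + (Real.log 40 - 74 / 15) + 3 * ε := by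
    refine le_of_mul_le_mul_right ?_ hn'0
    rw [hsn]
    linarith
  have hs2 : L - D ≤ s := by
    refine le_of_mul_le_mul_right ?_ hn'0
    rw [hsn]
    have := log_forty
    have h14 : n' * (3.6655 : ℝ) ≤ n' * Real.log 40 := by gcongr
    have h15 : 0 < n' * ε := by positivity
    have e3 : n' * (L - J + 2) ≤ T := by
      rw [hT, hθJ, hn']
      have : 0 ≤ L - J + 2 := by linarith
      have h16 : (n - 1) * (L - J + 2) ≤ n * (L - J + 2) := by gcongr; linarith
      have h17 : n * (L - J + 2) = n * L - n * J + 2 * n := by ring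
      linarith
    have e4 : (L - D) * n' ≤ n' * (L - J) := by
      rw [mul_comm]; gcongr
    linarith
  set σ : ℝ := Real.exp (-s) with hσ
  have hσ0 : 0 < σ := Real.exp_pos _
  have hσw : ∀ p : {p // p ∈ oddP m}, σ * Real.log (p : ℕ) ≤ x0 := by
    intro p
    have h16 : σ ≤ Real.exp D / m := by
      rw [hσ]
      have : Real.exp (-s) ≤ Real.exp (D - L) := Real.exp_le_exp.mpr (by linarith)
      rwa [Real.exp_sub, hL, Real.exp_log hm0] at this
    calc σ * Real.log (p : ℕ) ≤ Real.exp D / m * L := by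
          gcongr
          exact hlogp' p
      _ = Real.exp D * L / m := by ring
      _ ≤ x0 := by rw [div_le_iff₀ hm0]; exact h7
  have hcond : T + ∑ p : {p // p ∈ oddP m}, Real.log (σ * Real.log (p : ℕ)) +
      Fintype.card {p // p ∈ oddP m} * (Real.log 40 - 74 / 15 + 2 * ε) ≤ 0 := by
    have h17 : ∑ p : {p // p ∈ oddP m}, Real.log (σ * Real.log (p : ℕ)) = -(s * n') + LL := by
      have : ∀ p : {p // p ∈ oddP m}, Real.log (σ * Real.log (p : ℕ)) =
          -s + Real.log (Real.log (p : ℕ)) := by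
        intro p
        rw [Real.log_mul hσ0.ne' (hlogp0 p).ne', hσ, Real.log_exp]
      simp only [this]
      rw [Finset.sum_add_distrib, Finset.sum_const, nsmul_eq_mul, Finset.card_univ, hcard]
      ring
    rw [h17, hcard, hsn]
    linarith
  set lam : ℝ := (1 + ε) * (9 / 10) * n' / σ with hlam
  have hlam0 : 0 < lam := by positivity
  -- upper bound for `lam`
  set A : ℝ := 18 * Real.exp (3 * ε) * Real.exp (-(44 / 15)) * (n * m * L * Real.exp (-J)) with hA
  have hA0 : 0 < A := by positivity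
  have hlamA : lam ≤ 2 * (1 + ε) * A := by
    have h18 : 1 / σ ≤ Real.exp (L - J + 2 + Real.log L + (Real.log 40 - 74 / 15) + 3 * ε) := by
      rw [hσ, Real.exp_neg, one_div, inv_inv]
      exact Real.exp_le_exp.mpr hs1
    have h19 : Real.exp (L - J + 2 + Real.log L + (Real.log 40 - 74 / 15) + 3 * ε) =
        40 * (Real.exp (3 * ε) * Real.exp (-(44 / 15))) * (m * L * Real.exp (-J)) := by
      have : L - J + 2 + Real.log L + (Real.log 40 - 74 / 15) + 3 * ε =
          Real.log 40 + (3 * ε + -(44 / 15)) + (L + Real.log L + -J) := by ring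
      rw [this, Real.exp_add, Real.exp_add, Real.exp_add, Real.exp_add, Real.exp_add,
        Real.exp_log (by norm_num), hL, Real.exp_log hm0, Real.exp_log (by rw [← hL]; exact hL0)]
    rw [h19] at h18
    calc lam = (1 + ε) * (9 / 10) * n' * (1 / σ) := by rw [hlam]; ring
      _ ≤ (1 + ε) * (9 / 10) * n *
          (40 * (Real.exp (3 * ε) * Real.exp (-(44 / 15))) * (m * L * Real.exp (-J))) := by
          gcongr
          rw [hn']; linarith
      _ = 2 * (1 + ε) * A := by rw [hA]; ring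
  -- crude bound for `lam`
  have hlamm : lam ≤ (m : ℝ) ^ 4 := by
    have h20 : Real.exp (3 * ε) * Real.exp (-(44 / 15)) ≤ 1 := by
      rw [← Real.exp_add]; exact Real.exp_le_one_iff.mpr (by linarith)
    have h21 : Real.exp (-J) ≤ 1 := Real.exp_le_one_iff.mpr (by linarith)
    have h22 : A ≤ 18 * (n * m * L) := by
      calc A = 18 * (Real.exp (3 * ε) * Real.exp (-(44 / 15))) * (n * m * L * Real.exp (-J)) := by
            rw [hA]; ring
        _ ≤ 18 * 1 * (n * m * L * 1) := by gcongr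
        _ = 18 * (n * m * L) := by ring
    calc lam ≤ 2 * (1 + ε) * A := hlamA
      _ ≤ 2 * (1 + 1 / 4) * (18 * (n * m * L)) := by gcongr
      _ = 45 * (n * m * L) := by ring
      _ ≤ m * (m * m * m) := by gcongr
      _ = (m : ℝ) ^ 4 := by ring
  have hlam1 : 1 ≤ lam := by
    have g1 : σ ≤ 1 := by
      rw [hσ]
      refine Real.exp_le_one_iff.mpr ?_
      linarith
    rw [hlam, le_div_iff₀ hσ0, one_mul]
    refine g1.trans ?_
    have g2 : 3 ≤ n' := by rw [hn']; linarith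
    have g7 : (1 : ℝ) * (9 / 10) * 3 ≤ (1 + ε) * (9 / 10) * n' := by
      gcongr
      linarith
    linarith
  set X1 : ℝ := (1 + 2 * ε) * A with hX1
  have hAlow : 9 * Real.exp (-(44 / 15) - D) * (m : ℝ) ^ 2 ≤ A := by
    have h23 : Real.exp (-D) ≤ Real.exp (-J) := Real.exp_le_exp.mpr (by linarith)
    have h24 : 1 ≤ Real.exp (3 * ε) := Real.one_le_exp (by positivity)
    calc 9 * Real.exp (-(44 / 15) - D) * (m : ℝ) ^ 2
        = 18 * 1 * Real.exp (-(44 / 15)) * ((m / 2) * m * Real.exp (-D)) := by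
          rw [sub_eq_add_neg, Real.exp_add]; ring
      _ ≤ 18 * Real.exp (3 * ε) * Real.exp (-(44 / 15)) * ((n * L) * m * Real.exp (-J)) := by
          gcongr
      _ = A := by rw [hA]; ring
  have hmm : (m : ℝ) ≤ (m : ℝ) ^ 2 := le_self_pow₀ (by linarith) (by norm_num)
  have hcX1 : lam / 2 + 2 ≤ X1 := by
    have h25 : 2 ≤ ε * A := by
      have h26 : 1 / (4 * ε * Real.exp (-(44 / 15) - D)) ≤ m :=
        hb9.trans (by exact_mod_cast h2)
      rw [div_le_iff₀ (by positivity)] at h26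
      have g3 : 0 ≤ ε * (Real.exp (-(44 / 15) - D) * m) := by positivity
      calc (2 : ℝ) ≤ (m * (4 * ε * Real.exp (-(44 / 15) - D))) * 2 := by linarith
        _ ≤ ε * (9 * Real.exp (-(44 / 15) - D) * m) := by linarith
        _ ≤ ε * (9 * Real.exp (-(44 / 15) - D) * (m : ℝ) ^ 2) := by gcongr
        _ ≤ ε * A := by gcongr
    rw [hX1]
    linarith
  have hX1e : Real.exp 2 ≤ X1 := by
    have g4 : Real.exp 2 / Real.exp (-(44 / 15) - D) ≤ m := hb8.trans (by exact_mod_cast hb8m)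
    rw [div_le_iff₀ (Real.exp_pos _)] at g4
    have g5 : 0 < Real.exp (-(44 / 15) - D) := Real.exp_pos _
    have g6 : Real.exp 2 ≤ Real.exp (-(44 / 15) - D) * (m : ℝ) ^ 2 := by
      refine g4.trans ?_
      rw [mul_comm]
      exact mul_le_mul_of_nonneg_left hmm g5.le
    rw [hX1]
    have h31 : 0 ≤ ε * A := by positivity
    linarith [Real.exp_pos 2]
  have hX1log : (2 - ε) * L ≤ Real.log X1 := by
    have h28 : Real.exp (-(44 / 15) - D) * (m : ℝ) ^ 2 ≤ X1 := by
      rw [hX1]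
      have h30 : 0 ≤ Real.exp (-(44 / 15) - D) * (m : ℝ) ^ 2 := by positivity
      have h31 : 0 ≤ ε * A := by positivity
      linarith
    have h29 := Real.log_le_log (by positivity) h28
    rw [Real.log_mul (Real.exp_pos _).ne' (by positivity), Real.log_exp, Real.log_pow] at h29
    rw [div_le_iff₀ hε] at h4
    push_cast at h29
    linarith
  have hopt := opt (X1 := X1) (J := J) (K := K) hε hε1 hK hn0 hm0 hL0 (by rw [hnJ]; exact hgood)
    (by rw [hX1])
  have h2ε : 0 < 2 - ε := by linarith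
  refine ⟨m, lam, X1, h1, by linarith, hlam1, hlamm, hcX1, hX1e, ?_, ?_⟩
  · calc K * (√X1 / Real.log X1) ≤ K * (√X1 / ((2 - ε) * L)) := by gcongr
      _ = K * √X1 / ((2 - ε) * L) := by ring
      _ ≤ (2 - ε) * n := by
          rw [div_le_iff₀ (by positivity)]
          linarith
  · intro N hN hlogN W
    obtain ⟨e, he, hdvd, hle⟩ := hlat {p // p ∈ oddP m}
      (fun p => Real.log (p : ℕ)) N W σ
      (by
        have : (n0 : ℝ) ≤ (Fintype.card {p // p ∈ oddP m} : ℝ) := by
          rw [hcard, hn']; linarith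
        exact_mod_cast this) hN hlogp0 hσ0 hσw (by linarith)
    refine ⟨e, he, hdvd, ?_⟩
    rw [hcard] at hle
    exact hle

end Pool.Agent.H357R2.Sz
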