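import Pool.Agent.H357R2.Sz.Pair

open Finset Nat Filter Topology

namespace Pool.Agent.H357R2.Sz

open Pool.Agent.H390R2

/-- The Weierstrass curve `y² + xy = x³ + ((B-A-1)/4) x² - (AB/16) x` over `ℤ`, a model of
`y² = x (x - A) (x + B)` when `16 ∣ A` and `4 ∣ B - 1`. -/
def frey (A B : ℤ) : WeierstrassCurve ℤ := ⟨1, (B - A - 1) / 4, 0, -(A * B / 16), 0⟩

/-- The product of the primes dividing the discriminant. -/
def conductor (W : WeierstrassCurve ℤ) : ℕ := ∏ p ∈ W.Δ.natAbs.primeFactors, p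

lemma frey_disc {α β : ℤ} : (frey (16 * α) (1 + 4 * β)).Δ =
    (α * (1 + 4 * β) * (16 * α + (1 + 4 * β))) ^ 2 := by
  have h1 : (1 + 4 * β - 16 * α - 1) / 4 = β - 4 * α := by omega
  have h2 : 16 * α * (1 + 4 * β) / 16 = α * (1 + 4 * β) := by
    rw [mul_assoc, Int.mul_ediv_cancel_left _ (by norm_num)]
  simp only [frey, WeierstrassCurve.Δ, WeierstrassCurve.b₂, WeierstrassCurve.b₄,
    WeierstrassCurve.b₆, WeierstrassCurve.b₈, h1, h2]
  ring

lemma frey_c4 {α β : ℤ} : (frey (16 * α) (1 + 4 * β)).c₄ =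
    (16 * α) ^ 2 + (16 * α) * (1 + 4 * β) + (1 + 4 * β) ^ 2 := by
  have h1 : (1 + 4 * β - 16 * α - 1) / 4 = β - 4 * α := by omega
  have h2 : 16 * α * (1 + 4 * β) / 16 = α * (1 + 4 * β) := by
    rw [mul_assoc, Int.mul_ediv_cancel_left _ (by norm_num)]
  simp only [frey, WeierstrassCurve.c₄, WeierstrassCurve.b₂, WeierstrassCurve.b₄, h1, h2]
  ring

lemma frey_coprime {α β : ℤ} (h : IsCoprime (16 * α) (1 + 4 * β)) :
    IsCoprime (frey (16 * α) (1 + 4 * β)).c₄ (frey (16 * α) (1 + 4 * β)).Δ := by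
  rw [frey_disc, frey_c4]
  set A : ℤ := 16 * α with hA
  set B : ℤ := 1 + 4 * β with hB
  refine IsCoprime.pow_right ?_
  have h1 : IsCoprime (A ^ 2 + A * B + B ^ 2) A := by
    have : A ^ 2 + A * B + B ^ 2 = B ^ 2 + A * (A + B) := by ring
    rw [this]
    exact (h.symm.pow_left).add_mul_left_left _
  have h2 : IsCoprime (A ^ 2 + A * B + B ^ 2) B := by
    have : A ^ 2 + A * B + B ^ 2 = A ^ 2 + B * (A + B) := by ring
    rw [this]
    exact (h.pow_left).add_mul_left_left _
  have h3 : IsCoprime (A ^ 2 + A * B + B ^ 2) (A + B) := by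
    have : A ^ 2 + A * B + B ^ 2 = A ^ 2 + (A + B) * B := by ring
    rw [this]
    refine IsCoprime.add_mul_left_left ?_ _
    refine IsCoprime.pow_left ?_
    have h4 : A + B = B + A * 1 := by ring
    rw [h4]
    exact h.add_mul_left_right _
  have h5 : IsCoprime (A ^ 2 + A * B + B ^ 2) α :=
    h1.of_isCoprime_of_dvd_right (Dvd.intro_left 16 rfl)
  exact (h5.mul_right h2).mul_right h3

lemma rad_mul_le {s : Finset ℕ} {a b : ℕ} (ha : 0 < a) (hb : 0 < b) (hs : ∀ p ∈ s, 1 ≤ p)
    (hbs : b.primeFactors ⊆ s) : ∏ p ∈ (a * b).primeFactors, p ≤ a * ∏ p ∈ s, p := by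
  rw [Nat.primeFactors_mul ha.ne' hb.ne']
  calc ∏ p ∈ a.primeFactors ∪ b.primeFactors, p ≤ ∏ p ∈ a.primeFactors ∪ s, p := by
        refine Finset.prod_le_prod_of_subset_of_one_le' (Finset.union_subset_union_right hbs) ?_
        intro p hp _
        rcases Finset.mem_union.mp hp with h | h
        · exact (Nat.prime_of_mem_primeFactors h).one_le
        · exact hs p h
    _ ≤ (∏ p ∈ a.primeFactors, p) * ∏ p ∈ s, p := by
        rw [← Finset.prod_union_inter]
        refine Nat.le_mul_of_pos_right _ (Finset.prod_pos fun p hp => ?_)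
        exact (Nat.prime_of_mem_primeFactors (Finset.mem_inter.mp hp).1).pos
    _ ≤ a * ∏ p ∈ s, p := Nat.mul_le_mul_right _ (rad_le ha)

/-- The curve attached to a pair. -/
theorem curve {m k a b : ℕ} {lam n : ℝ} {u : ℤˣ} (hm : 45 ≤ m) (hk : 5 ≤ k)
    (hkn : ∑ p ∈ primesLE m, Real.log p + 2 * n + 4 * Real.log 2 ≤ k * Real.log 2) (hn : 1 ≤ n)
    (ha : 0 < a) (hb : 0 < b) (hao : Odd a) (hbo : Odd b) (hcop : Nat.Coprime a b) (hab : a ≠ b)
    (hap : a.primeFactors ⊆ oddP m) (hbp : b.primeFactors ⊆ oddP m)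
    (hdvd : (2 ^ k : ℤ) ∣ (a : ℤ) - u * b) (hlam : Real.log a + Real.log b ≤ lam)
    (hbal : |Real.log a - Real.log b| ≤ 1) :
    ∃ A B : ℤ, 32 ∣ A ∧ 4 ∣ B - 1 ∧ IsCoprime A B ∧ A * B * (A + B) ≠ 0 ∧
      (frey A B).Δ = (A * B * (A + B)) ^ 2 / 2 ^ 8 ∧
      IsCoprime (frey A B).c₄ (frey A B).Δ ∧ 0 < (frey A B).Δ ∧
      6 ≤ conductor (frey A B) ∧
      Real.log (conductor (frey A B)) ≤ lam / 2 + 2 ∧
      12 * n + 6 ≤ Real.log (frey A B).Δ - 6 * Real.log (conductor (frey A B)) := by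
  have hl2 : (0.693 : ℝ) < Real.log 2 := by linarith [Real.log_two_gt_d9]
  have hl2' : Real.log 2 < (0.6932 : ℝ) := by linarith [Real.log_two_lt_d9]
  -- choose the sign
  obtain ⟨y, hy4, hyab, η, hη⟩ : ∃ y : ℤ, (4 ∣ y - 1) ∧ y.natAbs = b ∧ ∃ η : ℤˣ, y = η * (u * b) := by
    have hb' : Odd ((u : ℤ) * b) := by
      rcases Int.units_eq_one_or u with h | h <;> rw [h] <;> push_cast
      · simpa using hbo
      · rw [neg_one_mul, odd_neg]; exact_mod_cast hbo
    have hna : ((u : ℤ) * b).natAbs = b := by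
      rcases Int.units_eq_one_or u with h | h <;> rw [h] <;> simp
    have h4 : ((u : ℤ) * b) % 4 = 1 ∨ ((u : ℤ) * b) % 4 = 3 := by
      have := Int.odd_iff.mp hb'
      omega
    rcases h4 with h | h
    · exact ⟨(u : ℤ) * b, by omega, hna, 1, by simp⟩
    · refine ⟨-((u : ℤ) * b), by omega, by rw [Int.natAbs_neg, hna], -1, by simp⟩
  obtain ⟨w, hw⟩ := hdvd
  set A : ℤ := η * ((a : ℤ) - u * b) with hA
  have hAw : A = 2 ^ k * (η * w) := by rw [hA, hw]; ring
  set w' : ℤ := η * w with hw'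
  have hAB : A + y = η * a := by rw [hA, hη]; ring
  have hη1 : ((η : ℤ)).natAbs = 1 := by
    rcases Int.units_eq_one_or η with h | h <;> rw [h] <;> simp
  have hABabs : (A + y).natAbs = a := by rw [hAB, Int.natAbs_mul, hη1]; simp
  have hA0 : A ≠ 0 := by
    intro h0
    have h1 : (A + y).natAbs = y.natAbs := by rw [h0, zero_add]
    rw [hABabs, hyab] at h1
    exact hab h1
  have hw0 : w' ≠ 0 := by
    intro h0
    rw [h0, mul_zero] at hAw
    exact hA0 hAw
  have hy0 : y ≠ 0 := by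
    intro h0; rw [h0] at hyab; simp at hyab; omega
  have hABn : A + y ≠ 0 := by
    intro h0; rw [h0] at hABabs; simp at hABabs; omega
  obtain ⟨β, hβ⟩ := hy4
  have hy1 : y = 1 + 4 * β := by linarith
  obtain ⟨j, rfl⟩ : ∃ j, k = j + 5 := ⟨k - 5, by omega⟩
  set α : ℤ := 2 ^ (j + 1) * w' with hα
  have hAα : A = 16 * α := by rw [hAw, hα]; ring
  have hcopAy : IsCoprime A y := by
    have h1 : IsCoprime (A + y) y := by
      rw [Int.isCoprime_iff_nat_coprime, hABabs, hyab]
      exact hcop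
    have h2 : A = (A + y) + y * (-1) := by ring
    rw [h2]
    exact h1.add_mul_left_left _
  have hΔ : (frey A y).Δ = (α * y * (A + y)) ^ 2 := by
    rw [hAα, hy1]; exact frey_disc
  have hα0 : α ≠ 0 := by rw [hα]; positivity
  have hprod0 : α * y * (A + y) ≠ 0 := mul_ne_zero (mul_ne_zero hα0 hy0) hABn
  have hΔpos : 0 < (frey A y).Δ := by rw [hΔ]; positivity
  -- the conductor
  have hnat : (α * y * (A + y)).natAbs = 2 ^ (j + 1) * w'.natAbs * (b * a) := by
    rw [Int.natAbs_mul, Int.natAbs_mul, hABabs, hyab, hα, Int.natAbs_mul, Int.natAbs_pow]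
    simp
    ring
  have hwn : 0 < w'.natAbs := Int.natAbs_pos.mpr hw0
  have hpf : (frey A y).Δ.natAbs.primeFactors = (w'.natAbs * (2 * (b * a))).primeFactors := by
    rw [hΔ, Int.natAbs_pow, hnat, Nat.primeFactors_pow _ (by norm_num)]
    have h1 : 2 ^ (j + 1) * w'.natAbs * (b * a) = w'.natAbs * (2 ^ (j + 1) * (b * a)) := by ring
    have hba : b * a ≠ 0 := (Nat.mul_pos hb ha).ne'
    have h2ba : 2 * (b * a) ≠ 0 := mul_ne_zero two_ne_zero hba
    have h2jba : 2 ^ (j + 1) * (b * a) ≠ 0 := mul_ne_zero (by positivity) hba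
    rw [h1, Nat.primeFactors_mul hwn.ne' h2jba, Nat.primeFactors_mul hwn.ne' h2ba,
      Nat.primeFactors_mul (by positivity) hba, Nat.primeFactors_mul two_ne_zero hba,
      Nat.primeFactors_pow _ (by omega)]
  have h2mem : 2 ∈ primesLE m := by
    rw [mem_primesLE]
    exact ⟨by omega, Nat.prime_two⟩
  have hsub : (2 * (b * a)).primeFactors ⊆ primesLE m := by
    rw [Nat.primeFactors_mul (by norm_num) (by positivity), Nat.primeFactors_mul hb.ne' ha.ne']
    intro p hp
    simp only [Finset.mem_union] at hp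
    rcases hp with hp | hp | hp
    · have : p = 2 := by simpa [Nat.Prime.primeFactors Nat.prime_two] using hp
      rw [this]; exact h2mem
    · exact Finset.mem_of_mem_erase (hbp hp)
    · exact Finset.mem_of_mem_erase (hap hp)
  have hNle : conductor (frey A y) ≤ w'.natAbs * ∏ p ∈ primesLE m, p := by
    unfold conductor
    rw [hpf]
    exact rad_mul_le hwn (by positivity) (fun p hp => (prime_of_mem_primesLE hp).one_le) hsub
  -- at least 6
  have hN6 : 6 ≤ conductor (frey A y) := by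
    have hne : b * a ≠ 1 := by
      intro h
      have h1 := Nat.eq_one_of_mul_eq_one_left h
      have h2 := Nat.eq_one_of_mul_eq_one_right h
      omega
    obtain ⟨q, hq, hqd⟩ := Nat.exists_prime_and_dvd hne
    have hq2 : q ≠ 2 := by
      rintro rfl
      have h1 : Odd (b * a) := hbo.mul hao
      exact (Nat.not_even_iff_odd.mpr h1) (even_iff_two_dvd.mpr hqd)
    have hq3 : 3 ≤ q := by have := hq.two_le; omega
    have hsub2 : ({2, q} : Finset ℕ) ⊆ (frey A y).Δ.natAbs.primeFactors := by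
      rw [hpf]
      intro p hp
      simp only [Finset.mem_insert, Finset.mem_singleton] at hp
      rw [Nat.mem_primeFactors]
      rcases hp with rfl | rfl
      · exact ⟨Nat.prime_two, (Dvd.intro _ rfl : 2 ∣ 2 * (b * a)).mul_left _, by positivity⟩
      · exact ⟨hq, (hqd.mul_left 2).mul_left _, by positivity⟩
    have h3 : ∏ p ∈ ({2, q} : Finset ℕ), p ≤ conductor (frey A y) := by
      unfold conductor
      exact Finset.prod_le_prod_of_subset_of_one_le' hsub2
        fun p hp _ => (Nat.prime_of_mem_primeFactors hp).one_le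
    rw [Finset.prod_pair hq2.symm] at h3
    omega
  -- logarithms
  set θ : ℝ := ∑ p ∈ primesLE m, Real.log p with hθ
  have hw' : (0 : ℝ) < w'.natAbs := by exact_mod_cast hwn
  have hNpos : (0 : ℝ) < conductor (frey A y) := by exact_mod_cast (by omega : 0 < conductor (frey A y))
  have hlogN : Real.log (conductor (frey A y)) ≤ Real.log w'.natAbs + θ := by
    have h1 : (conductor (frey A y) : ℝ) ≤ w'.natAbs * ∏ p ∈ primesLE m, (p : ℝ) := by
      have h0 : ((conductor (frey A y) : ℕ) : ℝ) ≤ ((w'.natAbs * ∏ p ∈ primesLE m, p : ℕ) : ℝ) :=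
        Nat.cast_le.mpr hNle
      rwa [Nat.cast_mul, Nat.cast_prod] at h0
    have hP : (0 : ℝ) < ∏ p ∈ primesLE m, (p : ℝ) :=
      Finset.prod_pos fun p hp => by exact_mod_cast (prime_of_mem_primesLE hp).pos
    have h2 := Real.log_le_log hNpos h1
    rw [Real.log_mul hw'.ne' hP.ne', Real.log_prod (fun p hp => by
        have : (0 : ℝ) < p := by exact_mod_cast (prime_of_mem_primesLE hp).pos
        exact this.ne')] at h2
    exact h2
  have ha' : (0 : ℝ) < a := by exact_mod_cast ha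
  have hb' : (0 : ℝ) < b := by exact_mod_cast hb
  -- size of A
  have hAabs : (A.natAbs : ℝ) = 2 ^ (j + 5) * w'.natAbs := by
    have : A.natAbs = 2 ^ (j + 5) * w'.natAbs := by
      rw [hAw, Int.natAbs_mul, Int.natAbs_pow]; rfl
    rw [this]; push_cast; ring
  have hAle : A.natAbs ≤ a + b := by
    have h1 : A = (A + y) - y := by ring
    calc A.natAbs = ((A + y) - y).natAbs := by rw [← h1]
      _ ≤ (A + y).natAbs + y.natAbs := Int.natAbs_sub_le _ _
      _ = a + b := by rw [hABabs, hyab]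
  have hlogA : Real.log A.natAbs = (j + 5 : ℕ) * Real.log 2 + Real.log w'.natAbs := by
    rw [hAabs, Real.log_mul (by positivity) hw'.ne', Real.log_pow]
  set S : ℝ := Real.log a + Real.log b with hS
  have hlogAle : Real.log A.natAbs ≤ Real.log 2 + (S + 1) / 2 := by
    have hApos : (0 : ℝ) < A.natAbs := by rw [hAabs]; positivity
    rcases le_total a b with h | h
    · have h1 : (A.natAbs : ℝ) ≤ 2 * b := by
        have : A.natAbs ≤ 2 * b := by omega
        exact_mod_cast this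
      have h2 := Real.log_le_log hApos h1
      rw [Real.log_mul two_ne_zero hb'.ne'] at h2
      have h3 := (abs_le.mp hbal).1
      linarith
    · have h1 : (A.natAbs : ℝ) ≤ 2 * a := by
        have : A.natAbs ≤ 2 * a := by omega
        exact_mod_cast this
      have h2 := Real.log_le_log hApos h1
      rw [Real.log_mul two_ne_zero ha'.ne'] at h2
      have h3 := (abs_le.mp hbal).2
      linarith
  have hlogΔ : Real.log ((frey A y).Δ : ℤ) = 2 * (Real.log A.natAbs - 4 * Real.log 2 + S) := by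
    have h1 : (((frey A y).Δ : ℤ) : ℝ) = ((2 ^ (j + 1) * w'.natAbs * (b * a) : ℕ) : ℝ) ^ 2 := by
      rw [← hnat, hΔ]
      push_cast
      rw [Nat.cast_natAbs]
      push_cast
      rw [sq_abs]
    rw [h1, Real.log_pow, hlogA, hS]
    push_cast
    rw [Real.log_mul (by positivity) (by positivity), Real.log_mul (by positivity) hw'.ne',
      Real.log_mul hb'.ne' ha'.ne', Real.log_pow]
    push_cast
    ring
  refine ⟨A, y, ?_, ⟨β, by linarith⟩, hcopAy, ?_, ?_, ?_, hΔpos, hN6, ?_, ?_⟩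
  · refine ⟨2 ^ j * w', ?_⟩
    rw [hAw]; ring
  · exact mul_ne_zero (mul_ne_zero hA0 hy0) hABn
  · rw [hΔ, hAα]
    have : (16 * α * y * (16 * α + y)) ^ 2 = (α * y * (16 * α + y)) ^ 2 * 2 ^ 8 := by ring
    rw [this, Int.mul_ediv_cancel _ (by norm_num)]
  · rw [hAα, hy1] at hcopAy ⊢
    exact frey_coprime hcopAy
  · have h1 : ((j + 5 : ℕ) : ℝ) * Real.log 2 = Real.log A.natAbs - Real.log w'.natAbs := by
      rw [hlogA]; ring
    linarith
  · have h1 : ((j + 5 : ℕ) : ℝ) * Real.log 2 = Real.log A.natAbs - Real.log w'.natAbs := by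
      rw [hlogA]; ring
    rw [hlogΔ]
    linarith

end Pool.Agent.H357R2.Sz
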