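import Pool.Agent.H357R2.Sz.Core2

open Finset Nat Filter Topology

namespace Pool.Agent.H357R2.Sz

open Pool.Agent.H390R2

lemma five_pow (k : ℕ) (hk : 3 ≤ k) : ∃ t : ℤ, (5 : ℤ) ^ (2 ^ (k - 2)) = 1 + 2 ^ k + 2 ^ (k + 1) * t := by
  induction k, hk using Nat.le_induction with
  | base => exact ⟨1, by norm_num⟩
  | succ k hk ih =>
    obtain ⟨t, ht⟩ := ih
    obtain ⟨j, rfl⟩ : ∃ j, k = j + 3 := ⟨k - 3, by omega⟩
    have e1 : j + 3 + 1 - 2 = (j + 3 - 2) + 1 := by omega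
    rw [e1, pow_succ 2, pow_mul, ht]
    refine ⟨t + 2 ^ (j + 1) * (1 + 2 * t) ^ 2, ?_⟩
    ring

lemma five_pow_zmod (k : ℕ) (hk : 3 ≤ k) : (5 : ZMod (2 ^ k)) ^ (2 ^ (k - 2)) = 1 := by
  obtain ⟨t, ht⟩ := five_pow k hk
  have h1 := congrArg (fun z : ℤ => (z : ZMod (2 ^ k))) ht
  have h2 : ((2 : ZMod (2 ^ k)) ^ k) = 0 := by
    have := ZMod.natCast_self (2 ^ k)
    push_cast at this
    exact this
  push_cast at h1
  rw [h1, pow_succ, h2]
  ring

/-- every odd integer is `± 5^j` modulo `2^k` -/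
lemma dlog (k : ℕ) (hk : 3 ≤ k) (a : ℤ) (ha : Odd a) :
    ∃ (j : ℕ) (s : ℤˣ) (t : ℤ), a = (s : ℤ) * 5 ^ j + 2 ^ k * t := by
  induction k, hk using Nat.le_induction with
  | base =>
    have h : a % 8 = 1 ∨ a % 8 = 3 ∨ a % 8 = 5 ∨ a % 8 = 7 := by
      have := Int.odd_iff.mp ha
      omega
    rcases h with h | h | h | h
    · exact ⟨0, 1, a / 8, by push_cast; omega⟩
    · exact ⟨1, -1, a / 8 + 1, by push_cast; omega⟩
    · exact ⟨1, 1, a / 8, by push_cast; omega⟩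
    · exact ⟨0, -1, a / 8 + 1, by push_cast; omega⟩
  | succ k hk ih =>
    obtain ⟨j, s, t, ht⟩ := ih
    rcases Int.even_or_odd t with ⟨u, hu⟩ | ⟨u, hu⟩
    · exact ⟨j, s, u, by rw [ht, hu]; ring⟩
    · obtain ⟨v, hv⟩ := five_pow k hk
      have h5 : Odd ((5 : ℤ) ^ j) := Odd.pow (by decide)
      obtain ⟨w, hw⟩ := h5
      rcases Int.units_eq_one_or s with rfl | rfl
      · refine ⟨j + 2 ^ (k - 2), 1, u - w - 5 ^ j * v, ?_⟩
        rw [ht, pow_add, hv, hu]
        push_cast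
        have : (5 : ℤ) ^ j * 2 ^ k = 2 ^ k + 2 ^ (k + 1) * w := by rw [hw]; ring
        linear_combination (-1 : ℤ) * this
      · refine ⟨j + 2 ^ (k - 2), -1, u + 1 + w + 5 ^ j * v, ?_⟩
        rw [ht, pow_add, hv, hu]
        push_cast
        have : (5 : ℤ) ^ j * 2 ^ k = 2 ^ k + 2 ^ (k + 1) * w := by rw [hw]; ring
        linear_combination (1 : ℤ) * this

lemma dlog_zmod (k : ℕ) (hk : 3 ≤ k) (a : ℕ) (ha : Odd a) :
    ∃ (j : ℕ) (s : ℤˣ), (a : ZMod (2 ^ k)) = ((s : ℤ) : ZMod (2 ^ k)) * 5 ^ j := by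
  obtain ⟨j, s, t, ht⟩ := dlog k hk a (by exact_mod_cast ha)
  refine ⟨j, s, ?_⟩
  have h1 := congrArg (fun z : ℤ => (z : ZMod (2 ^ k))) ht
  have h2 : ((2 : ZMod (2 ^ k)) ^ k) = 0 := by
    have := ZMod.natCast_self (2 ^ k)
    push_cast at this
    exact this
  push_cast at h1
  rw [h1, h2]
  ring

section
variable {m : ℕ} (e : {p // p ∈ oddP m} → ℤ)

/-- numerator attached to an exponent vector -/
def num : ℕ := ∏ p : {p // p ∈ oddP m}, (p : ℕ) ^ (e p).toNat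

lemma num_pos : 0 < num e :=
  Finset.prod_pos fun p _ => Nat.pow_pos (oddP_prime p.2).pos

lemma num_primeFactors : (num e).primeFactors ⊆ oddP m := by
  intro q hq
  have hq1 := Nat.prime_of_mem_primeFactors hq
  have hq2 := Nat.dvd_of_mem_primeFactors hq
  unfold num at hq2
  rw [Prime.dvd_finsetProd_iff hq1.prime] at hq2
  obtain ⟨p, _, hp⟩ := hq2
  have h1 := hq1.dvd_of_dvd_pow hp
  have h2 := (Nat.prime_dvd_prime_iff_eq hq1 (oddP_prime p.2)).mp h1
  rw [h2]; exact p.2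

lemma num_odd : Odd (num e) := by
  rw [Nat.odd_iff, ← Nat.not_even_iff, even_iff_two_dvd]
  intro h
  have := num_primeFactors e (Nat.mem_primeFactors.mpr ⟨Nat.prime_two, h, (num_pos e).ne'⟩)
  have := oddP_ge this
  omega

lemma log_num : Real.log (num e) = ∑ p : {p // p ∈ oddP m}, ((e p).toNat : ℝ) * Real.log (p : ℕ) := by
  unfold num
  push_cast
  rw [Real.log_prod]
  · refine Finset.sum_congr rfl fun p _ => ?_
    rw [Real.log_pow]
  · intro p _
    have : (0 : ℝ) < (p : ℕ) := by exact_mod_cast (oddP_prime p.2).pos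
    positivity

lemma num_coprime : Nat.Coprime (num e) (num (-e)) := by
  unfold num
  refine Nat.Coprime.prod_left fun p _ => Nat.Coprime.prod_right fun q _ => ?_
  by_cases hpq : p = q
  · subst hpq
    simp only [Pi.neg_apply]
    rcases le_total 0 (e p) with h | h
    · have : (-e p).toNat = 0 := by omega
      rw [this, pow_zero]; exact Nat.coprime_one_right _
    · have : (e p).toNat = 0 := by omega
      rw [this, pow_zero]; exact Nat.coprime_one_left _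
  · refine Nat.Coprime.pow _ _ ?_
    rw [Nat.coprime_primes (oddP_prime p.2) (oddP_prime q.2)]
    intro h
    exact hpq (Subtype.ext h)

lemma num_eq_one (h : num e = 1) : ∀ p, (e p).toNat = 0 := by
  intro p
  unfold num at h
  have h1 : (p : ℕ) ^ (e p).toNat ∣ 1 := by
    rw [← h]
    exact Finset.dvd_prod_of_mem _ (Finset.mem_univ p)
  have h2 := Nat.dvd_one.mp h1
  by_contra hne
  have := Nat.one_lt_pow hne (oddP_prime p.2).one_lt
  omega

lemma num_ne (he : e ≠ 0) : num e ≠ num (-e) := by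
  intro h
  have h1 := num_coprime e
  rw [← h, Nat.coprime_self] at h1
  have h2 := num_eq_one e h1
  have h3 := num_eq_one (-e) (h ▸ h1)
  apply he
  funext p
  have a1 := h2 p
  have a2 := h3 p
  simp only [Pi.neg_apply] at a2
  simp only [Pi.zero_apply]
  omega

lemma log_sub : Real.log (num e) - Real.log (num (-e)) =
    ∑ p : {p // p ∈ oddP m}, (e p : ℝ) * Real.log (p : ℕ) := by
  rw [log_num e, log_num (-e), ← Finset.sum_sub_distrib]
  refine Finset.sum_congr rfl fun p _ => ?_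
  rw [← sub_mul]
  congr 1
  have : (e p) = ((e p).toNat : ℤ) - ((-e) p).toNat := by
    simp only [Pi.neg_apply]; omega
  exact_mod_cast congrArg (fun z : ℤ => (z : ℝ)) this.symm

lemma log_add : Real.log (num e) + Real.log (num (-e)) =
    ∑ p : {p // p ∈ oddP m}, |(e p : ℝ)| * Real.log (p : ℕ) := by
  rw [log_num e, log_num (-e), ← Finset.sum_add_distrib]
  refine Finset.sum_congr rfl fun p _ => ?_
  rw [← add_mul]
  congr 1
  have : |e p| = ((e p).toNat : ℤ) + ((-e) p).toNat := by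
    simp only [Pi.neg_apply]
    rcases abs_cases (e p) with h | h <;> omega
  exact_mod_cast congrArg (fun z : ℤ => (z : ℝ)) this.symm

lemma num_zmod {k : ℕ} (d : {p // p ∈ oddP m} → ℕ) (s : {p // p ∈ oddP m} → ℤˣ)
    (h : ∀ p : {p // p ∈ oddP m}, ((p : ℕ) : ZMod (2 ^ k)) = (((s p : ℤˣ) : ℤ) : ZMod (2 ^ k)) * 5 ^ d p) :
    ∃ u : ℤˣ, (num e : ZMod (2 ^ k)) = ((u : ℤ) : ZMod (2 ^ k)) * 5 ^ (∑ p, d p * (e p).toNat) := by
  refine ⟨∏ p, (s p) ^ (e p).toNat, ?_⟩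
  unfold num
  push_cast
  rw [← Finset.prod_pow_eq_pow_sum, ← Finset.prod_mul_distrib]
  refine Finset.prod_congr rfl fun p _ => ?_
  rw [h p, mul_pow, pow_mul]

end

/-- From short vectors to two odd smooth integers that are close both `2`-adically and really. -/
theorem pair {m : ℕ} {lam : ℝ} (hm : 45 ≤ m) (hlam1 : 1 ≤ lam) (hlamm : lam ≤ (m : ℝ) ^ 4)
    (hshort : ∀ N : ℕ, 0 < N → Real.log N ≤ ∑ p ∈ primesLE m, Real.log p +
          2 * Nat.primeCounting m + 20 * Real.log m →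
        ∀ W : {p // p ∈ oddP m} → ℤ, ∃ e : {p // p ∈ oddP m} → ℤ, e ≠ 0 ∧
          (N : ℤ) ∣ ∑ i, W i * e i ∧
          ∑ i : {p // p ∈ oddP m}, |(e i : ℝ)| * Real.log (i : ℕ) ≤ lam) :
    ∃ (k a b : ℕ) (u : ℤˣ), 5 ≤ k ∧
      ∑ p ∈ primesLE m, Real.log p + 2 * Nat.primeCounting m + 4 * Real.log 2 ≤ k * Real.log 2 ∧
      0 < a ∧ 0 < b ∧ Odd a ∧ Odd b ∧ Nat.Coprime a b ∧ a ≠ b ∧
      a.primeFactors ⊆ oddP m ∧ b.primeFactors ⊆ oddP m ∧
      (2 ^ k : ℤ) ∣ (a : ℤ) - u * b ∧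
      Real.log a + Real.log b ≤ lam ∧ |Real.log a - Real.log b| ≤ 1 := by
  have hl2 : (0 : ℝ) < Real.log 2 := Real.log_pos one_lt_two
  have hl2' : Real.log 2 < 0.7 := by linarith [Real.log_two_lt_d9]
  have hm45 : (45 : ℝ) ≤ m := by exact_mod_cast hm
  set θ : ℝ := ∑ p ∈ primesLE m, Real.log p with hθ
  have hθ0 : 0 ≤ θ := Finset.sum_nonneg fun p hp => Real.log_natCast_nonneg p
  set n : ℝ := (Nat.primeCounting m : ℝ) with hn
  have hn1 : 1 ≤ n := by
    have h1 : Nat.primeCounting 2 ≤ Nat.primeCounting m := Nat.monotone_primeCounting (by omega)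
    have h2 : 1 ≤ Nat.primeCounting m := by
      have h3 : Nat.primeCounting 2 = 1 := by decide
      omega
    rw [hn]
    exact_mod_cast h2
  set k0 : ℕ := ⌈(θ + 2 * n) / Real.log 2⌉₊ with hk0
  have hk0a : θ + 2 * n ≤ k0 * Real.log 2 := by
    rw [← div_le_iff₀ hl2]; exact Nat.le_ceil _
  have hk0b : (k0 : ℝ) * Real.log 2 ≤ θ + 2 * n + Real.log 2 := by
    have h1 : (k0 : ℝ) < (θ + 2 * n) / Real.log 2 + 1 := Nat.ceil_lt_add_one (by positivity)
    have h2 := mul_le_mul_of_nonneg_right h1.le hl2.le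
    rwa [add_mul, div_mul_cancel₀ _ hl2.ne', one_mul] at h2
  have hk01 : 1 ≤ k0 := by
    by_contra h
    have : k0 = 0 := by omega
    rw [this] at hk0a
    simp only [Nat.cast_zero, zero_mul] at hk0a
    linarith
  set k : ℕ := k0 + 4 with hk
  have hk3 : 3 ≤ k := by omega
  set M : ℕ := 2 * ⌈lam ^ 2⌉₊ + 1 with hM
  have hMlow : lam ^ 2 < M := by
    have h1 := Nat.le_ceil (lam ^ 2)
    have h2 : (M : ℝ) = 2 * (⌈lam ^ 2⌉₊ : ℝ) + 1 := by rw [hM]; push_cast; ring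
    rw [h2]
    have : (0 : ℝ) ≤ (⌈lam ^ 2⌉₊ : ℝ) := by positivity
    linarith
  have hMup : (M : ℝ) ≤ (m : ℝ) ^ 9 := by
    have h1 : (⌈lam ^ 2⌉₊ : ℝ) < lam ^ 2 + 1 := Nat.ceil_lt_add_one (by positivity)
    have h2 : (M : ℝ) = 2 * (⌈lam ^ 2⌉₊ : ℝ) + 1 := by rw [hM]; push_cast; ring
    have h3 : lam ^ 2 ≤ (m : ℝ) ^ 8 := by
      calc lam ^ 2 ≤ ((m : ℝ) ^ 4) ^ 2 := by gcongr
        _ = (m : ℝ) ^ 8 := by ring
    have h4 : (1 : ℝ) ≤ (m : ℝ) ^ 8 := one_le_pow₀ (by linarith)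
    have h5 : (m : ℝ) ^ 9 = (m : ℝ) ^ 8 * m := by ring
    have h6 : (m : ℝ) ^ 8 * 45 ≤ (m : ℝ) ^ 8 * m := by gcongr
    rw [h2, h5]
    linarith
  have hM0 : 0 < M := by omega
  have hM0' : (0 : ℝ) < M := by exact_mod_cast hM0
  have hlogM : Real.log M ≤ 9 * Real.log m := by
    have := Real.log_le_log hM0' hMup
    rwa [Real.log_pow] at this
  have hcop : Nat.Coprime (2 ^ (k - 2)) M := by
    refine Nat.Coprime.pow_left _ ?_
    rw [Nat.coprime_two_left, hM]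
    exact ⟨_, rfl⟩
  have hLm : (2 : ℝ) ≤ Real.log m := by
    rw [Real.le_log_iff_exp_le (by linarith)]
    have h1 : Real.exp 2 = Real.exp 1 ^ 2 := by rw [← Real.exp_nat_mul]; norm_num
    rw [h1]
    have h2 := Real.exp_one_lt_d9
    have h3 : Real.exp 1 ^ 2 ≤ 3 ^ 2 := by
      gcongr
      linarith
    linarith
  have hlogN : Real.log ((2 ^ (k - 2) * M : ℕ) : ℝ) ≤ θ + 2 * n + 20 * Real.log m := by
    push_cast
    rw [Real.log_mul (by positivity) hM0'.ne', Real.log_pow]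
    have h1 : ((k - 2 : ℕ) : ℝ) = k0 + 2 := by
      have : k - 2 = k0 + 2 := by omega
      rw [this]; push_cast; ring
    rw [h1]
    nlinarith
  have hkey : ∀ p : {p // p ∈ oddP m}, ∃ (j : ℕ) (s : ℤˣ),
      ((p : ℕ) : ZMod (2 ^ k)) = ((s : ℤ) : ZMod (2 ^ k)) * 5 ^ j :=
    fun p => dlog_zmod k hk3 p (oddP_odd p.2)
  choose d s hds using hkey
  set w : {p // p ∈ oddP m} → ℕ := fun p => ⌊lam * Real.log (p : ℕ)⌋₊ with hw
  have hlogp1 : ∀ p : {p // p ∈ oddP m}, 1 ≤ Real.log (p : ℕ) := fun p => by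
    rw [Real.le_log_iff_exp_le (by exact_mod_cast (oddP_prime p.2).pos)]
    have : (3 : ℝ) ≤ (p : ℕ) := by exact_mod_cast oddP_ge p.2
    linarith [Real.exp_one_lt_d9]
  obtain ⟨e, he, hdvd, hsum⟩ := hshort (2 ^ (k - 2) * M) (by positivity) hlogN
    (fun p => ((Nat.chineseRemainder hcop (d p) (w p) : ℕ) : ℤ))
  have hW1 : ∀ p, ((2 ^ (k - 2) : ℕ) : ℤ) ∣
      ((Nat.chineseRemainder hcop (d p) (w p) : ℕ) : ℤ) - d p := fun p =>
    (Int.natCast_modEq_iff.mpr (Nat.chineseRemainder hcop (d p) (w p)).2.1).symm.dvd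
  have hW2 : ∀ p, (M : ℤ) ∣
      ((Nat.chineseRemainder hcop (d p) (w p) : ℕ) : ℤ) - w p := fun p =>
    (Int.natCast_modEq_iff.mpr (Nat.chineseRemainder hcop (d p) (w p)).2.2).symm.dvd
  -- the 2-adic congruence
  have hd1 : ((2 ^ (k - 2) : ℕ) : ℤ) ∣ ∑ p, (d p : ℤ) * e p := by
    have h1 : ((2 ^ (k - 2) : ℕ) : ℤ) ∣ ∑ p, ((Nat.chineseRemainder hcop (d p) (w p) : ℕ) : ℤ) * e p :=
      (Dvd.intro _ (by push_cast; ring)).trans hdvd
    have h2 : ∑ p, (d p : ℤ) * e p = ∑ p, ((Nat.chineseRemainder hcop (d p) (w p) : ℕ) : ℤ) * e p -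
        ∑ p, (((Nat.chineseRemainder hcop (d p) (w p) : ℕ) : ℤ) - d p) * e p := by
      rw [← Finset.sum_sub_distrib]
      exact Finset.sum_congr rfl fun p _ => by ring
    rw [h2]
    exact dvd_sub h1 (Finset.dvd_sum fun p _ => (hW1 p).mul_right _)
  have hd2 : (M : ℤ) ∣ ∑ p, (w p : ℤ) * e p := by
    have h1 : (M : ℤ) ∣ ∑ p, ((Nat.chineseRemainder hcop (d p) (w p) : ℕ) : ℤ) * e p :=
      (Dvd.intro_left (((2 ^ (k - 2) : ℕ) : ℤ)) (by push_cast; ring)).trans hdvd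
    have h2 : ∑ p, (w p : ℤ) * e p = ∑ p, ((Nat.chineseRemainder hcop (d p) (w p) : ℕ) : ℤ) * e p -
        ∑ p, (((Nat.chineseRemainder hcop (d p) (w p) : ℕ) : ℤ) - w p) * e p := by
      rw [← Finset.sum_sub_distrib]
      exact Finset.sum_congr rfl fun p _ => by ring
    rw [h2]
    exact dvd_sub h1 (Finset.dvd_sum fun p _ => (hW2 p).mul_right _)
  -- the real condition
  have hwle : ∀ p : {p // p ∈ oddP m}, (w p : ℝ) ≤ lam * Real.log (p : ℕ) := fun p =>
    Nat.floor_le (by have := hlogp1 p; positivity)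
  have hwge : ∀ p : {p // p ∈ oddP m}, lam * Real.log (p : ℕ) - 1 ≤ w p := fun p => by
    have := Nat.lt_floor_add_one (lam * Real.log (p : ℕ))
    simp only [hw]
    linarith
  have hzero : ∑ p, (w p : ℤ) * e p = 0 := by
    refine Int.eq_zero_of_abs_lt_dvd hd2 ?_
    have h1 : |((∑ p, (w p : ℤ) * e p : ℤ) : ℝ)| < M := by
      push_cast
      calc |∑ p : {p // p ∈ oddP m}, (w p : ℝ) * (e p : ℝ)|
          ≤ ∑ p : {p // p ∈ oddP m}, |(w p : ℝ) * (e p : ℝ)| := Finset.abs_sum_le_sum_abs _ _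
        _ ≤ ∑ p : {p // p ∈ oddP m}, lam * (|(e p : ℝ)| * Real.log (p : ℕ)) := by
            refine Finset.sum_le_sum fun p _ => ?_
            rw [abs_mul, abs_of_nonneg (by positivity : (0 : ℝ) ≤ w p)]
            have := mul_le_mul_of_nonneg_right (hwle p) (abs_nonneg (e p : ℝ))
            linarith
        _ = lam * ∑ p : {p // p ∈ oddP m}, |(e p : ℝ)| * Real.log (p : ℕ) := by
            rw [Finset.mul_sum]
        _ ≤ lam * lam := by gcongr
        _ < M := by rw [← sq]; exact hMlow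
    exact_mod_cast h1
  have hl : |Real.log (num e) - Real.log (num (-e))| ≤ 1 := by
    rw [log_sub]
    have h1 : lam * ∑ p : {p // p ∈ oddP m}, (e p : ℝ) * Real.log (p : ℕ) =
        ∑ p : {p // p ∈ oddP m}, (lam * Real.log (p : ℕ) - w p) * (e p : ℝ) := by
      have h2 : ∑ p : {p // p ∈ oddP m}, (w p : ℝ) * (e p : ℝ) = 0 := by
        exact_mod_cast congrArg (fun z : ℤ => (z : ℝ)) hzero
      rw [Finset.mul_sum]
      simp only [sub_mul]
      rw [Finset.sum_sub_distrib, h2, sub_zero]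
      exact Finset.sum_congr rfl fun _ _ => by ring
    have h3 : |lam * ∑ p : {p // p ∈ oddP m}, (e p : ℝ) * Real.log (p : ℕ)| ≤ lam := by
      rw [h1]
      calc |∑ p : {p // p ∈ oddP m}, (lam * Real.log (p : ℕ) - w p) * (e p : ℝ)|
          ≤ ∑ p : {p // p ∈ oddP m}, |(lam * Real.log (p : ℕ) - w p) * (e p : ℝ)| :=
            Finset.abs_sum_le_sum_abs _ _
        _ ≤ ∑ p : {p // p ∈ oddP m}, |(e p : ℝ)| * Real.log (p : ℕ) := by
            refine Finset.sum_le_sum fun p _ => ?_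
            rw [abs_mul]
            have h4 : |lam * Real.log (p : ℕ) - w p| ≤ 1 := by
              rw [abs_of_nonneg (by linarith [hwle p])]
              linarith [hwge p]
            calc |lam * Real.log (p : ℕ) - w p| * |(e p : ℝ)| ≤ 1 * |(e p : ℝ)| := by gcongr
              _ = |(e p : ℝ)| * 1 := by ring
              _ ≤ |(e p : ℝ)| * Real.log (p : ℕ) := by
                gcongr
                exact hlogp1 p
        _ ≤ lam := hsum
    rw [abs_mul, abs_of_pos (by linarith)] at h3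
    by_contra hcon
    push Not at hcon
    have : lam * 1 < lam * |∑ p : {p // p ∈ oddP m}, (e p : ℝ) * Real.log (p : ℕ)| :=
      mul_lt_mul_of_pos_left hcon (by linarith)
    linarith
  -- the congruence
  obtain ⟨u1, hu1⟩ := num_zmod e d s hds
  obtain ⟨u2, hu2⟩ := num_zmod (-e) d s hds
  set α : ℕ := ∑ p, d p * (e p).toNat with hα
  set β : ℕ := ∑ p, d p * ((-e) p).toNat with hβ
  have hαβ : (α : ℤ) - β = ∑ p, (d p : ℤ) * e p := by
    rw [hα, hβ]
    push_cast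
    rw [← Finset.sum_sub_distrib]
    refine Finset.sum_congr rfl fun p _ => ?_
    rw [← mul_sub]
    congr 1
    simp only [Pi.neg_apply]
    omega
  have hmod : α % 2 ^ (k - 2) = β % 2 ^ (k - 2) := by
    have h1 : ((2 ^ (k - 2) : ℕ) : ℤ) ∣ (α : ℤ) - β := by rw [hαβ]; exact hd1
    have h2 := (Int.modEq_iff_dvd.mpr h1).symm
    exact Int.natCast_modEq_iff.mp h2
  have h5 := five_pow_zmod k hk3
  have hpow : (5 : ZMod (2 ^ k)) ^ α = 5 ^ β := by
    rw [pow_eq_pow_mod α h5, pow_eq_pow_mod β h5, hmod]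
  refine ⟨k, num e, num (-e), u1 * u2, by omega, ?_, num_pos _, num_pos _, num_odd _, num_odd _,
    num_coprime e, num_ne e he, num_primeFactors e, num_primeFactors (-e), ?_, ?_, hl⟩
  · have : ((k : ℕ) : ℝ) = k0 + 4 := by rw [hk]; push_cast; ring
    rw [this]
    linarith
  · have h6 : (((num e : ℤ) - ((u1 * u2 : ℤˣ) : ℤ) * (num (-e) : ℤ) : ℤ) : ZMod (2 ^ k)) = 0 := by
      push_cast
      rw [hu1, hu2, hpow]
      rcases Int.units_eq_one_or u2 with h | h <;> rw [h] <;> push_cast <;> ring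
    have h7 := (ZMod.intCast_zmod_eq_zero_iff_dvd _ (2 ^ k)).mp h6
    push_cast at h7
    push_cast
    exact h7
  · rw [log_add]; exact hsum

end Pool.Agent.H357R2.Sz
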